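import Mathlib
import Pool.Agent.W218.PG.QP2

set_option autoImplicit false

/-!
Odd integers `n = f(q) + p`, `f = X^2 + b X + c` admissible, with very small primes `q`: for a positive proportion of
the odd `n` the number of representations with `q ≤ x` is at least `θ` times the number predicted by the conjecture of
Schinzel and Bateman-Horn, for `x` as small as `log n` times `log log n`.
-/

namespace Pool.Agent.Results.MP_d9bc60_nt.TinyPrimesExact

open Finset Filter Topology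

/-- the number of primes `q ≤ x` such that `n - f(q)` is a (positive) prime, `f = X^2 + b X + c` -/
def R (b c : ℤ) (n x : ℕ) : ℕ :=
  ((Icc 1 x).filter (fun q : ℕ => q.Prime ∧ ((n : ℤ) - ((q : ℤ) ^ 2 + b * q + c)).toNat.Prime)).card

/-- the number of residues `r` mod `p` with `r (n - f(r)) ≡ 0` -/
def omega (b c : ℤ) (n p : ℕ) : ℕ :=
  ((range p).filter (fun r : ℕ => (p : ℤ) ∣ (r : ℤ) * ((n : ℤ) - ((r : ℤ) ^ 2 + b * r + c)))).card

/-- the product over the primes `p ≤ N` in the singular series -/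
noncomputable def SP (b c : ℤ) (n N : ℕ) : ℝ :=
  ∏ p ∈ (range (N + 1)).filter Nat.Prime, (((1 - 1 / (p : ℝ)) ^ 2)⁻¹ * (1 - (omega b c n p : ℝ) / p))

open Classical in
theorem result (b c : ℤ) (hpar : Odd (b + c)) (h3 : ¬ (3 : ℤ) ∣ b) (C : ℝ) (hC : 0 < C) (θ : ℝ) (hθ : θ < 1) :
    ∃ κ : ℝ, 0 < κ ∧ ∃ M₀ : ℕ, ∀ M : ℕ, M₀ ≤ M →
      ∀ x : ℕ, C * Real.log M ≤ x / Real.log x → (x : ℝ) ^ 2 ≤ κ * M →
      κ * M ≤ (((Ioc M (2 * M)).filter (fun n : ℕ => Odd n ∧ (∀ m : ℤ, (n : ℤ) ≠ m ^ 2 + b * m + c) ∧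
        ∃ S : ℝ, 0 < S ∧ Tendsto (SP b c n) atTop (𝓝 S) ∧
          θ * S * (x / (Real.log x * Real.log M)) ≤ R b c n x ∧
          κ * (x / (Real.log x * Real.log M)) ≤ R b c n x)).card : ℝ) := by
  obtain ⟨κ, hκ, x0, h⟩ := Pool.Agent.W218.PG.quadP b c h3 hpar C hC θ hθ
  set L : ℝ := 1 + |(b : ℝ)| + |(c : ℝ)| with hL
  have hL1 : 1 ≤ L := by
    have := abs_nonneg (b : ℝ)
    have := abs_nonneg (c : ℝ)
    rw [hL]; linarith
  have hL0 : 0 < L := by linarith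
  set κ' : ℝ := min (κ / L) 1 with hκ'
  have hκ'0 : 0 < κ' := by positivity
  have hκ'κ : κ' ≤ κ := by
    refine (min_le_left _ _).trans ?_
    rw [div_le_iff₀ hL0]
    nlinarith
  refine ⟨κ', hκ'0, ⌈Real.exp (1 + (x0 + 3 : ℕ) / C)⌉₊, fun A hA x hcx hxA => ?_⟩
  have hA1 : Real.exp (1 + (x0 + 3 : ℕ) / C) ≤ A := (Nat.le_ceil _).trans (by exact_mod_cast hA)
  have hA0 : (0 : ℝ) < A := lt_of_lt_of_le (Real.exp_pos _) hA1
  have hlA : 1 + ((x0 + 3 : ℕ) : ℝ) / C ≤ Real.log A := by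
    rwa [Real.le_log_iff_exp_le hA0]
  have hlA1 : 1 ≤ Real.log A := by
    have : (0 : ℝ) ≤ ((x0 + 3 : ℕ) : ℝ) / C := by positivity
    linarith
  have hX : ((x0 + 3 : ℕ) : ℝ) ≤ x / Real.log x := by
    refine le_trans ?_ hcx
    have h1 : ((x0 + 3 : ℕ) : ℝ) / C ≤ Real.log A := by linarith
    rw [div_le_iff₀ hC] at h1
    linarith
  have hX3 : (3 : ℝ) ≤ x / Real.log x := by
    push_cast at hX
    have : (0 : ℝ) ≤ x0 := Nat.cast_nonneg _
    linarith
  have hx3 : 3 ≤ x := by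
    by_contra hcon
    have hx2 : x ≤ 2 := by omega
    have h2 : (x : ℝ) / Real.log x < 3 := by
      interval_cases x
      · simp
      · simp
      · have h3 := Real.log_two_gt_d9
        rw [div_lt_iff₀ (by push_cast; linarith)]
        push_cast
        linarith
    linarith
  have hx3r : (3 : ℝ) ≤ x := by exact_mod_cast hx3
  have hx0 : (0 : ℝ) < x := by linarith
  have hlx1 : 1 ≤ Real.log x := by
    rw [Real.le_log_iff_exp_le hx0]
    have := Real.exp_one_lt_d9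
    linarith
  have hXx : (x : ℝ) / Real.log x ≤ x := by
    rw [div_le_iff₀ (by linarith)]
    nlinarith
  have hx1 : x0 ≤ x := by
    have : ((x0 + 3 : ℕ) : ℝ) ≤ x := hX.trans hXx
    have h2 : x0 + 3 ≤ x := by exact_mod_cast this
    omega
  have hxA2 : (x : ℝ) ^ 2 ≤ A := by
    refine hxA.trans ?_
    calc κ' * (A : ℝ) ≤ 1 * A := mul_le_mul_of_nonneg_right (min_le_right _ _) hA0.le
      _ = A := one_mul _
  have hxA1 : x ≤ A := by
    have : (x : ℝ) ≤ A := by nlinarith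
    exact_mod_cast this
  have h1 := h x hx1 A hxA1 hcx (by
    intro t ht1 ht2
    have ht1r : (1 : ℝ) ≤ t := by exact_mod_cast ht1
    have ht2r : (t : ℝ) ≤ x := by exact_mod_cast ht2
    have htt : (t : ℝ) ≤ (t : ℝ) ^ 2 := by nlinarith
    have ht1' : (1 : ℝ) ≤ (t : ℝ) ^ 2 := by nlinarith
    push_cast
    calc |(t : ℝ) ^ 2 + b * t + c| ≤ |(t : ℝ) ^ 2| + |b * (t : ℝ)| + |(c : ℝ)| := abs_add_three _ _ _
      _ = (t : ℝ) ^ 2 + |(b : ℝ)| * t + |(c : ℝ)| * 1 := by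
          rw [abs_mul, abs_of_nonneg (by positivity : (0 : ℝ) ≤ (t : ℝ) ^ 2), abs_of_nonneg (by positivity : (0 : ℝ) ≤ (t : ℝ)), mul_one]
      _ ≤ (t : ℝ) ^ 2 + |(b : ℝ)| * (t : ℝ) ^ 2 + |(c : ℝ)| * (t : ℝ) ^ 2 := by gcongr
      _ = L * (t : ℝ) ^ 2 := by rw [hL]; ring
      _ ≤ L * (x : ℝ) ^ 2 := by gcongr
      _ ≤ L * (κ' * A) := by gcongr
      _ ≤ L * (κ / L * A) := by
          have : κ' ≤ κ / L := min_le_left _ _
          gcongr
      _ = κ * A := by field_simp)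
  refine le_trans (mul_le_mul_of_nonneg_right hκ'κ hA0.le) (h1.trans ?_)
  have hsub : (Ioc A (2 * A)).filter (fun n : ℕ => Odd n ∧ ¬ IsSquare (Pool.Agent.W218.PG.Dn b c n) ∧
      ∃ S : ℝ, 0 < S ∧ Tendsto (Pool.Agent.W218.PG.S2 b c n) atTop (𝓝 S) ∧
        θ * S * (x / (Real.log x * Real.log A)) ≤ Pool.Agent.W218.PG.RR b c n x ∧
        κ * (x / (Real.log x * Real.log A)) ≤ Pool.Agent.W218.PG.RR b c n x) ⊆
      (Ioc A (2 * A)).filter (fun n : ℕ => Odd n ∧ (∀ m : ℤ, (n : ℤ) ≠ m ^ 2 + b * m + c) ∧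
        ∃ S : ℝ, 0 < S ∧ Tendsto (SP b c n) atTop (𝓝 S) ∧
          θ * S * (x / (Real.log x * Real.log A)) ≤ R b c n x ∧
          κ' * (x / (Real.log x * Real.log A)) ≤ R b c n x) := by
    intro n hn
    rw [mem_filter] at hn ⊢
    obtain ⟨hnI, hodd, hD, S, hS0, hS, h4, h5⟩ := hn
    refine ⟨hnI, hodd, ?_, S, hS0, hS, h4, ?_⟩
    · intro m hm
      apply hD
      refine ⟨2 * m + b, ?_⟩
      unfold Pool.Agent.W218.PG.Dn
      rw [hm]; ring
    · refine le_trans ?_ h5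
      exact mul_le_mul_of_nonneg_right hκ'κ (by positivity)
  exact_mod_cast card_le_card hsub

end Pool.Agent.Results.MP_d9bc60_nt.TinyPrimesExact
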