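import Pool.Agent.W23.UG.All

/-!
Representations `N = f(n) + q` with `n` in an ARBITRARY set `A` of integers (for example a set of primes), for almost
all `N`, and simultaneous representations `N_i = f_i(n) + q_i` with the same `n`.
-/

namespace Pool.Agent.Results.MP_d9bc60_nt.UniversalSummands

open Finset Polynomial

/-- the part of `n` composed of the primes `> z` -/
def rpart (z n : ℕ) : ℕ := (n.primeFactorsList.filter (fun p => z < p)).prod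

/-- `Λ` on the integers, `0` for `v ≤ 0` -/
noncomputable def Lam (v : ℤ) : ℝ := if 1 ≤ v then ArithmeticFunction.vonMangoldt v.toNat else 0

/-- `Λ` of the rough part of `v`, `0` for `v ≤ 0` -/
noncomputable def LR (z : ℕ) (v : ℤ) : ℝ :=
  if 1 ≤ v then ArithmeticFunction.vonMangoldt (rpart z v.toNat) else 0

/-- Mertens' product over the primes `≤ z` -/
noncomputable def V (z : ℕ) : ℝ := ∏ p ∈ (Icc 1 z).filter Nat.Prime, (1 - 1 / (p : ℝ))

/-- the positive integer `v` is a prime times a product of primes `≤ z` -/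
def AP (z : ℕ) (v : ℤ) : Prop := 1 ≤ v ∧ (rpart z v.toNat).Prime

/-- the positive integer `v` has no prime factor `≤ z` -/
def Rough (z : ℕ) (v : ℤ) : Prop := 1 ≤ v ∧ ∀ p ∈ (Icc 1 z).filter Nat.Prime, ¬ p ∣ v.toNat

open Classical in
theorem result (k : ℕ) (f : Fin k → ℤ[X]) (hf : ∀ i, 1 ≤ (f i).natDegree)
    (hl : ∀ i, 0 < (f i).leadingCoeff) (B : ℕ) (hB : 1 ≤ B) :
    (∀ U : ℕ, ∃ B₀ : ℕ, ∀ E : ℕ, ∃ x₀ : ℕ, ∀ x : ℕ, x₀ ≤ x →
      ∀ z : ℕ, Real.log x ^ B₀ ≤ z → (z : ℝ) ≤ Real.log x ^ E →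
      ∀ g : ℕ → ℝ, (∀ n, |g n| ≤ 1) →
      ∃ H : Finset (Fin k → ℕ), (H.card : ℝ) ≤ (∏ i, ((x : ℝ) ^ (f i).natDegree)) / Real.log x ^ U ∧
        ∀ N ∈ Fintype.piFinset (fun i => Icc 1 (B * x ^ (f i).natDegree)), N ∉ H →
          |∑ n ∈ Icc 1 x, g n * ∏ i, Lam ((N i : ℤ) - (f i).eval (n : ℤ)) -
            (V z)⁻¹ ^ k * ∑ n ∈ (Icc 1 x).filter (fun n : ℕ => ∀ i, Rough z ((N i : ℤ) - (f i).eval (n : ℤ))), g n| ≤
            x / Real.log x ^ U ∧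
          |∑ n ∈ Icc 1 x, g n * ∏ i, LR z ((N i : ℤ) - (f i).eval (n : ℤ)) -
            (V z)⁻¹ ^ k * ∑ n ∈ (Icc 1 x).filter (fun n : ℕ => ∀ i, 1 ≤ (N i : ℤ) - (f i).eval (n : ℤ)), g n| ≤
            x / Real.log x ^ U) ∧
    (∀ (C U : ℕ) (ε : ℝ), 0 < ε → ∃ B₀ : ℕ, ∀ E : ℕ, ∃ x₀ : ℕ, ∀ x : ℕ, x₀ ≤ x →
      ∀ z : ℕ, Real.log x ^ B₀ ≤ z → (z : ℝ) ≤ Real.log x ^ E →
      ∀ A : Finset ℕ, A ⊆ Icc 1 x → x / Real.log x ^ C ≤ (A.card : ℝ) →
      ∃ H : Finset (Fin k → ℕ), (H.card : ℝ) ≤ (∏ i, ((x : ℝ) ^ (f i).natDegree)) / Real.log x ^ U ∧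
        ∀ N ∈ Fintype.piFinset (fun i => Icc 1 (B * x ^ (f i).natDegree)), N ∉ H →
          |((A.filter (fun n : ℕ => ∀ i, AP z ((N i : ℤ) - (f i).eval (n : ℤ)))).card : ℝ) -
            ((A.filter (fun n : ℕ => ∀ i, 1 ≤ (N i : ℤ) - (f i).eval (n : ℤ))).card : ℝ) /
              ∏ i, (V z * ((f i).natDegree * Real.log x))| ≤
            ε * (A.card / ∏ i, (V z * ((f i).natDegree * Real.log x)))) := by
  refine ⟨fun U => ?_, fun C U ε hε => ?_⟩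
  · obtain ⟨B1, h1⟩ := Pool.Agent.W23.UG.honest_thm k f hf hl B hB (U + 1)
    obtain ⟨B2, h2⟩ := Pool.Agent.W23.UG.law_thm k f hf hl B hB (U + 1)
    refine ⟨max B1 B2, fun E => ?_⟩
    obtain ⟨x1, h1⟩ := h1 E
    obtain ⟨x2, h2⟩ := h2 E
    obtain ⟨x3, h3⟩ := Pool.Agent.H373R2.T7.ev_L' 2
    refine ⟨max (max x1 x2) x3, fun x hx z hz1 hz2 g hg => ?_⟩
    have hL2 := h3 x (by omega)
    have hL1 : 1 ≤ Real.log x := by linarith
    obtain ⟨H1, hH1, hm1⟩ := h1 x (by omega) z ((pow_le_pow_right₀ hL1 (le_max_left _ _)).trans hz1) hz2 g hg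
    obtain ⟨H2, hH2, hm2⟩ := h2 x (by omega) z ((pow_le_pow_right₀ hL1 (le_max_right _ _)).trans hz1) hz2 g hg
    have hx0 : (0 : ℝ) ≤ x := Nat.cast_nonneg _
    have hhalf : ∀ y : ℝ, 0 ≤ y → y / Real.log x ^ (U + 1) ≤ (y / Real.log x ^ U) / 2 := by
      intro y hy
      have hp : 0 < Real.log x ^ U := by positivity
      rw [pow_succ, div_div, div_le_div_iff₀ (by positivity) (by positivity)]
      nlinarith [mul_nonneg hy hp.le]
    have hprod : 0 ≤ ∏ i, ((x : ℝ) ^ (f i).natDegree) := prod_nonneg fun _ _ => by positivity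
    refine ⟨H1 ∪ H2, ?_, fun N hN hNH => ?_⟩
    · have e1 : ((H1 ∪ H2).card : ℝ) ≤ H1.card + H2.card := by exact_mod_cast card_union_le _ _
      have e2 := hhalf _ hprod
      linarith
    · rw [mem_union, not_or] at hNH
      have e2 := hhalf _ hx0
      have e3 : 0 ≤ (x : ℝ) / Real.log x ^ U := by positivity
      refine ⟨le_trans (hm1 N hN hNH.1) (by linarith), le_trans (hm2 N hN hNH.2) (by linarith)⟩
  · exact Pool.Agent.W23.UG.count_thm k f hf hl B hB C U ε hε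

end Pool.Agent.Results.MP_d9bc60_nt.UniversalSummands
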